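import Mathlib

/-!
Planar achievement sets of absolutely summable sequences are regularly closed or nowhere dense.
-/

namespace Pool.Agent.Results.MP_69f3e4_an.Main

open Filter Topology

/-- The achievement set (set of all subsums) of a sequence `v` of vectors. -/
def achievementSet {V : Type*} [NormedAddCommGroup V] (v : ℕ → V) : Set V :=
  {x | ∃ s : ℕ → Bool, x = ∑' n, (if s n then v n else 0)}

section

variable {V : Type*} [NormedAddCommGroup V] [CompleteSpace V]

theorem norm_ite_le (v : ℕ → V) (s : ℕ → Bool) (n : ℕ) : ‖(if s n then v n else 0)‖ ≤ ‖v n‖ := by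
  split_ifs
  · exact le_refl _
  · simp

theorem summable_ite {v : ℕ → V} (hv : Summable (fun n => ‖v n‖)) (s : ℕ → Bool) :
    Summable (fun n => if s n then v n else 0) :=
  Summable.of_norm_bounded hv (norm_ite_le v s)

theorem isCompact_ach {v : ℕ → V} (hv : Summable (fun n => ‖v n‖)) :
    IsCompact (achievementSet v) := by
  have : achievementSet v = Set.range (fun s : ℕ → Bool => ∑' n, (if s n then v n else 0)) := by
    ext x
    constructor
    · rintro ⟨s, rfl⟩; exact ⟨s, rfl⟩
    · rintro ⟨s, rfl⟩; exact ⟨s, rfl⟩
  rw [this]
  apply isCompact_range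
  apply continuous_tsum (u := fun n => ‖v n‖) _ hv
  · intro n s
    exact norm_ite_le v s n
  · intro n
    have h1 : Continuous (fun b : Bool => if b then v n else 0) := continuous_of_discreteTopology
    exact h1.comp (continuous_apply n)

theorem ach_shift {v : ℕ → V} (hv : Summable (fun n => ‖v n‖)) :
    achievementSet v = achievementSet (fun n => v (n + 1)) ∪
      (fun x => v 0 + x) '' achievementSet (fun n => v (n + 1)) := by
  ext x
  constructor
  · rintro ⟨s, rfl⟩
    rw [(summable_ite hv s).tsum_eq_zero_add]
    by_cases h : s 0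
    · right
      rw [if_pos h]
      exact ⟨_, ⟨fun n => s (n + 1), rfl⟩, rfl⟩
    · left
      rw [if_neg h, zero_add]
      exact ⟨fun n => s (n + 1), rfl⟩
  · rintro (⟨s, rfl⟩ | ⟨_, ⟨s, rfl⟩, rfl⟩)
    · refine ⟨fun n => Nat.casesOn n false s, ?_⟩
      rw [(summable_ite hv _).tsum_eq_zero_add]
      simp
    · refine ⟨fun n => Nat.casesOn n true s, ?_⟩
      rw [(summable_ite hv _).tsum_eq_zero_add]
      simp

theorem interior_shift {v : ℕ → V} (hv : Summable (fun n => ‖v n‖))
    (h : (interior (achievementSet v)).Nonempty) :
    (interior (achievementSet (fun n => v (n + 1)))).Nonempty := by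
  by_contra hne
  rw [Set.not_nonempty_iff_eq_empty] at hne
  have hv' : Summable (fun n => ‖v (n + 1)‖) := (summable_nat_add_iff 1).mpr hv
  have h1 : interior ((fun x => v 0 + x) '' achievementSet (fun n => v (n + 1))) = ∅ := by
    have h2 := (Homeomorph.addLeft (v 0)).image_interior (achievementSet (fun n => v (n + 1)))
    rw [hne, Set.image_empty] at h2
    exact h2.symm
  have h3 := interior_union_isClosed_of_interior_empty (isCompact_ach hv').isClosed h1
  rw [← ach_shift hv, hne] at h3
  rw [h3] at h
  exact Set.not_nonempty_empty h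

theorem interior_shift_n {v : ℕ → V} (hv : Summable (fun n => ‖v n‖))
    (h : (interior (achievementSet v)).Nonempty) (m : ℕ) :
    (interior (achievementSet (fun n => v (n + m)))).Nonempty := by
  induction m with
  | zero => exact h
  | succ m ih =>
    have h1 := interior_shift (v := fun n => v (n + m))
      ((summable_nat_add_iff (f := fun n => ‖v n‖) m).mpr hv) ih
    have h2 : (fun n => v (n + 1 + m)) = fun n => v (n + (m + 1)) := by
      funext n; congr 1; ring
    rw [h2] at h1
    exact h1

theorem norm_le_of_mem {v : ℕ → V} (hv : Summable (fun n => ‖v n‖)) {x : V}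
    (hx : x ∈ achievementSet v) : ‖x‖ ≤ ∑' n, ‖v n‖ := by
  obtain ⟨s, rfl⟩ := hx
  exact tsum_of_norm_bounded hv.hasSum (norm_ite_le v s)

/-- General form: in any complete normed group. -/
theorem dichotomy {v : ℕ → V} (hv : Summable (fun n => ‖v n‖))
    (h : (interior (achievementSet v)).Nonempty) :
    achievementSet v = closure (interior (achievementSet v)) := by
  apply Set.Subset.antisymm
  · rintro x ⟨s, rfl⟩
    rw [Metric.mem_closure_iff]
    intro ε hε
    -- small tail
    have htail : Tendsto (fun m => ∑' n, ‖v (n + m)‖) atTop (𝓝 0) :=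
      tendsto_sum_nat_add (fun n => ‖v n‖)
    obtain ⟨m, hm⟩ := (htail.eventually (gt_mem_nhds (half_pos hε))).exists
    obtain ⟨z, hz⟩ := interior_shift_n hv h m
    have hvm : Summable (fun n => ‖v (n + m)‖) := (summable_nat_add_iff m).mpr hv
    set f : V := ∑ i ∈ Finset.range m, (if s i then v i else 0) with hf
    have hsub : (fun x => f + x) '' achievementSet (fun n => v (n + m)) ⊆ achievementSet v := by
      rintro _ ⟨_, ⟨t, rfl⟩, rfl⟩
      refine ⟨fun n => if n < m then s n else t (n - m), ?_⟩
      rw [← (summable_ite hv _).sum_add_tsum_nat_add m]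
      change f + _ = _
      congr 1
      · rw [hf]
        apply Finset.sum_congr rfl
        intro i hi
        rw [Finset.mem_range] at hi
        simp [hi]
      · apply tsum_congr
        intro n
        simp
    refine ⟨f + z, ?_, ?_⟩
    · apply interior_mono hsub
      have h2 := (Homeomorph.addLeft f).image_interior (achievementSet (fun n => v (n + m)))
      have h3 : f + z ∈ (Homeomorph.addLeft f) '' interior (achievementSet (fun n => v (n + m))) :=
        ⟨z, hz, rfl⟩
      rw [h2] at h3
      exact h3
    · rw [← (summable_ite hv s).sum_add_tsum_nat_add m, dist_eq_norm, ← hf]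
      have h1 : ‖∑' n, (if s (n + m) then v (n + m) else 0)‖ ≤ ∑' n, ‖v (n + m)‖ :=
        norm_le_of_mem hvm ⟨fun n => s (n + m), rfl⟩
      have h2 : ‖z‖ ≤ ∑' n, ‖v (n + m)‖ := norm_le_of_mem hvm (interior_subset hz)
      have h3 : f + ∑' n, (if s (n + m) then v (n + m) else 0) - (f + z) =
        ∑' n, (if s (n + m) then v (n + m) else 0) - z := by abel
      rw [h3]
      have h4 := norm_sub_le (∑' n, (if s (n + m) then v (n + m) else 0)) z
      linarith
  · exact closure_minimal interior_subset (isCompact_ach hv).isClosed

end

/-- For every absolutely summable sequence in the plane, the achievement set is regularly closed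
or nowhere dense. -/
theorem result (v : ℕ → EuclideanSpace ℝ (Fin 2)) (hv : Summable (fun n => ‖v n‖)) :
    achievementSet v = closure (interior (achievementSet v)) ∨
      interior (closure (achievementSet v)) = ∅ := by
  by_cases h : (interior (achievementSet v)).Nonempty
  · exact Or.inl (dichotomy hv h)
  · right
    rw [(isCompact_ach hv).isClosed.closure_eq]
    exact Set.not_nonempty_iff_eq_empty.mp h

end Pool.Agent.Results.MP_69f3e4_an.Main
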